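import Mathlib

set_option autoImplicit false

namespace Pool.Agent.Results.MP_549d70_gt.Main

open Set

def hist {α : Type*} (F : ℕ → α) : ℕ → List α
  | 0 => []
  | n + 1 => F n :: hist F n

variable {X : Type*} [TopologicalSpace X]

def DOm (𝒰 : Set (Set X)) : Prop :=
  (∀ U ∈ 𝒰, IsOpen U) ∧ Dense (⋃₀ 𝒰) ∧ (∀ U ∈ 𝒰, ¬ univ ⊆ closure U) ∧
    ∀ ℱ : Set (Set X), ℱ.Finite → (∀ F ∈ ℱ, IsOpen F ∧ F.Nonempty) →
      ∃ U ∈ 𝒰, ∀ F ∈ ℱ, (U ∩ F).Nonempty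

variable (X)

def SOne : Prop := ∀ 𝒰 : ℕ → Set (Set X), (∀ n, DOm (𝒰 n)) →
  ∃ U : ℕ → Set X, (∀ n, U n ∈ 𝒰 n) ∧ DOm (range U)

def SFin : Prop := ∀ 𝒰 : ℕ → Set (Set X), (∀ n, DOm (𝒰 n)) →
  ∃ F : ℕ → Set (Set X), (∀ n, (F n).Finite ∧ F n ⊆ 𝒰 n) ∧ DOm (⋃ n, F n)

def WinOne : Prop := ∃ σ : List (Set X) → Set (Set X), (∀ h, DOm (σ h)) ∧
  ∀ U : ℕ → Set X, (∀ n, U n ∈ σ (hist U n)) → ¬ DOm (range U)

def WinFin : Prop := ∃ σ : List (Set (Set X)) → Set (Set X), (∀ h, DOm (σ h)) ∧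
  ∀ F : ℕ → Set (Set X), (∀ n, (F n).Finite ∧ F n ⊆ σ (hist F n)) → ¬ DOm (⋃ n, F n)

def Pt := {ℱ : Set (Set X) // ℱ.Finite ∧ ∀ F ∈ ℱ, IsOpen F ∧ F.Nonempty}

variable {X}

def M (x : Pt X) (U : Set X) : Prop := ∀ F ∈ x.1, (U ∩ F).Nonempty

lemma M.mono {x : Pt X} {U V : Set X} (h : M x U) (h' : U ⊆ V) : M x V :=
  fun F hF => (h F hF).mono (inter_subset_inter_left _ h')

lemma M.shrink {x : Pt X} {W : Set X} (h : M x W) (hW : IsOpen W) :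
    ∃ y : Pt X, ∀ U, M y U → M x (W ∩ U) :=
  ⟨⟨(W ∩ ·) '' x.1, x.2.1.image _, forall_mem_image.2 fun F hF =>
    ⟨hW.inter (x.2.2 F hF).1, h F hF⟩⟩, fun U hU F hF => by
      have := hU _ ⟨F, hF, rfl⟩
      rwa [← inter_assoc, inter_comm U] at this⟩

lemma dom {𝒰 : Set (Set X)} (h : ∀ U ∈ 𝒰, IsOpen U ∧ ¬ univ ⊆ closure U)
    (h' : ∀ x : Pt X, ∃ U ∈ 𝒰, M x U) : DOm 𝒰 :=
  ⟨fun U hU => (h U hU).1, dense_iff_inter_open.2 fun V h1 h2 =>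
    let ⟨U, h3, h4⟩ := h' ⟨{V}, finite_singleton V, by simp [h1, h2]⟩
    let ⟨z, h⟩ := h4 V rfl
    ⟨z, h.2, U, h3, h.1⟩, fun U hU => (h U hU).2,
    fun ℱ h1 h2 => h' ⟨ℱ, h1, h2⟩⟩

lemma DOm.cov {𝒰 : Set (Set X)} (h : DOm 𝒰) (x : Pt X) : ∃ U ∈ 𝒰, M x U := h.2.2.2 _ x.2.1 x.2.2

lemma refine {ι : Type*} {𝒰 : ι → Set (Set X)} (h : ∀ i, DOm (𝒰 i)) {E : Set ι} (hE : E.Finite)
    {x : Pt X} {W : Set X} (h1 : IsOpen W) (h2 : M x W) :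
    ∃ V ⊆ W, IsOpen V ∧ M x V ∧ ∀ i ∈ E, ∃ U ∈ 𝒰 i, V ⊆ U := by
  induction E, hE using Finite.induction_on with
  | empty => exact ⟨W, subset_rfl, h1, h2, by simp⟩
  | @insert i E _ _ ih =>
    obtain ⟨V, h3, h4, h5, h6⟩ := ih
    obtain ⟨y, hy⟩ := h5.shrink h4
    obtain ⟨U, h7, h8⟩ := (h i).cov y
    exact ⟨V ∩ U, inter_subset_left.trans h3, h4.inter ((h i).1 U h7), hy U h8,
      forall_mem_insert.2 ⟨⟨U, h7, inter_subset_right⟩, fun j hj =>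
        (h6 j hj).imp fun _ h => ⟨h.1, inter_subset_left.trans h.2⟩⟩⟩

def G (O : List ℕ → ℕ → Set (Set X)) (j : ℕ) (W : Set X) : List ℕ → Prop
  | [] => False
  | k :: s => G O j W s ∨ (j ≤ k ∧ ∃ U ∈ O s k, W ⊆ U)

omit [TopologicalSpace X] in
lemma G.mono {O : List ℕ → ℕ → Set (Set X)} {j : ℕ} {W V : Set X} (h : V ⊆ W) :
    ∀ {s}, G O j W s → G O j V s
  | [] => id
  | _ :: _ => Or.imp (G.mono h) fun ⟨h1, U, h2, h3⟩ => ⟨h1, U, h2, h.trans h3⟩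

lemma tail {O : List ℕ → ℕ → Set (Set X)} (h1 : ∀ s, Monotone (O s))
    (h2 : ∀ s, DOm (⋃ k, O s k)) (j n : ℕ) :
    DOm {W | (IsOpen W ∧ ¬ univ ⊆ closure W) ∧ {s | s.length = n ∧ ¬ G O j W s}.Finite} := by
  refine dom (fun _ h => h.1) fun x => ?_
  induction n with
  | zero =>
    obtain ⟨U, h3, h4⟩ := (h2 []).cov x
    exact ⟨U, ⟨⟨(h2 []).1 U h3, (h2 []).2.2.1 U h3⟩, (finite_singleton []).subset
      fun _ h => List.length_eq_zero_iff.1 h.1⟩, h4⟩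
  | succ n ih =>
    obtain ⟨W, ⟨⟨h3, h4⟩, h5⟩, h6⟩ := ih
    obtain ⟨V, h7, h8, h9, k1⟩ := refine h2 h5 h3 h6
    choose! U k2 k3 using k1
    choose! k k4 using fun s hs => mem_iUnion.1 (k2 s hs)
    refine ⟨V, ⟨⟨h8, fun h => h4 (h.trans (closure_mono h7))⟩, (h5.biUnion fun s _ =>
      (finite_lt_nat (max j (k s))).image (· :: s)).subset ?_⟩, h9⟩
    rintro (_ | ⟨a, s⟩) ⟨k5, k6⟩
    · cases k5
    have k7 : s ∈ {s | s.length = n ∧ ¬ G O j W s} :=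
      ⟨Nat.succ.inj k5, fun h => k6 (Or.inl (h.mono h7))⟩
    exact mem_biUnion k7 ⟨a, lt_of_not_ge fun h => k6 (Or.inr ⟨le_of_max_le_left h, _,
      h1 s (le_of_max_le_right h) (k4 s k7), k3 s k7⟩), rfl⟩

lemma tree (hS : SFin X) {O : List ℕ → ℕ → Set (Set X)} (h1 : ∀ s, Monotone (O s))
    (h2 : ∀ s, DOm (⋃ k, O s k)) :
    ∃ b : ℕ → ℕ, ∀ (x : Pt X) N, ∃ n ≥ N, ∃ U ∈ O (hist b n) (b n), M x U := by
  choose 𝒲 h3 h4 using fun j => hS _ fun n => tail h1 h2 j (n + j + 1)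
  have h5 (s : List ℕ) : ∃ k, ∀ j n, n + j = s.length → ∀ W ∈ 𝒲 j n, G O j W (k :: s) := by
    obtain ⟨k, hk⟩ := (((finite_le_nat s.length).biUnion fun j _ =>
      (h3 j (s.length - j)).1.biUnion fun W hW => ((h3 j _).2 hW).2).preimage
        (f := (· :: s)) fun _ _ _ _ h => (List.cons.inj h).1).exists_notMem
    refine ⟨k, fun j n h W hW => by_contra fun h' => hk (mem_biUnion (show j ≤ _ by omega) ?_)⟩
    obtain rfl : n = s.length - j := by omega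
    exact mem_biUnion hW ⟨by simp [h], h'⟩
  choose c hc using h5
  let l : ℕ → List ℕ := Nat.rec [] fun _ s => c s :: s
  have h6 (n : ℕ) : hist (fun n => c (l n)) n = l n ∧ (l n).length = n := by
    induction n with
    | zero => exact ⟨rfl, rfl⟩
    | succ n ih => exact ⟨congrArg _ ih.1, congrArg (· + 1) ih.2⟩
  refine ⟨fun n => c (l n), fun x N => ?_⟩
  obtain ⟨j, hj⟩ := ((finite_lt_nat N).image fun n => c (l n)).bddAbove
  obtain ⟨W, h7, h8⟩ := (h4 (j + 1)).cov x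
  obtain ⟨n, h9⟩ := mem_iUnion.1 h7
  have k1 : G O (j + 1) W (l (n + (j + 1) + 1)) := hc _ _ n (h6 _).2.symm W h9
  generalize n + (j + 1) + 1 = m at k1
  induction m with
  | zero => exact k1.elim
  | succ m ih =>
    obtain k1 | ⟨k1, U, k2, k3⟩ := k1
    exacts [ih k1, ⟨m, le_of_not_gt fun h => Nat.not_succ_le_self j (k1.trans (hj ⟨m, h, rfl⟩)),
      U, (h6 m).1.symm ▸ k2, h8.mono k3⟩]

lemma core (hS : SFin X) {σ : List (Set (Set X)) → Set (Set X)} (hσ : ∀ h, DOm (σ h)) :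
    ∃ F : ℕ → Set (Set X), (∀ n, (F n).Finite ∧ F n ⊆ σ (hist F n)) ∧
      ∀ (x : Pt X) N, ∃ n ≥ N, ∃ U ∈ F n, M x U := by
  choose e h1 h2 using fun h => hS (fun _ => σ h) fun _ => hσ h
  let H : List ℕ → List (Set (Set X)) := List.rec [] fun (k : ℕ) _ h => accumulate (e h) k :: h
  obtain ⟨b, hb⟩ := tree hS (O := fun s => accumulate (e (H s))) (fun _ => monotone_accumulate)
    fun s => (iUnion_accumulate (s := e (H s))).symm ▸ h2 (H s)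
  have h3 (n : ℕ) : hist (fun n => accumulate (e (H (hist b n))) (b n)) n = H (hist b n) := by
    induction n with
    | zero => rfl
    | succ n ih => exact congrArg _ ih
  exact ⟨_, fun n => ⟨(finite_le_nat _).biUnion fun _ _ => (h1 _ _).1,
    (h3 n).symm ▸ iUnion₂_subset fun _ _ => (h1 _ _).2⟩, hb⟩

lemma gm (hS : SOne X) {F : ℕ → Set (Set X)} (h1 : ∀ n, ∀ U ∈ F n, IsOpen U ∧ ¬ univ ⊆ closure U)
    (h2 : ∀ (x : Pt X) N, ∃ n ≥ N, ∃ U ∈ F n, M x U) :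
    ∃ W : ℕ → Set X, (∀ n, W n ∈ insert ∅ (F n)) ∧ ∀ x : Pt X, ∃ n, M x (W n) := by
  classical
  obtain ⟨V, h3, h4⟩ := hS (fun k => {V | (IsOpen V ∧ ¬ univ ⊆ closure V) ∧ ∃ T : Finset ℕ,
      k < T.card ∧ ∀ n ∈ T, ∃ U ∈ F n, V ⊆ U}) fun k => dom (fun _ h => h.1) fun x => by
    induction k with
    | zero =>
      obtain ⟨n, -, U, h3, h4⟩ := h2 x 0
      exact ⟨U, ⟨h1 n U h3, {n}, by simp, by simpa using ⟨U, h3, subset_rfl⟩⟩, h4⟩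
    | succ k ih =>
      obtain ⟨V, ⟨⟨h3, h4⟩, T, h5, h6⟩, h7⟩ := ih
      obtain ⟨y, hy⟩ := h7.shrink h3
      obtain ⟨n, h8, U, h9, k1⟩ := h2 y (T.sup id + 1)
      exact ⟨V ∩ U, ⟨⟨h3.inter (h1 n U h9).1, fun h => h4 (h.trans (closure_mono
        inter_subset_left))⟩, insert n T, by
          rw [Finset.card_insert_of_notMem fun h => (Nat.lt_of_succ_le h8).not_ge
            (Finset.le_sup (f := id) h)]
          omega, Finset.forall_mem_insert _ _ _ |>.2 ⟨⟨U, h9, inter_subset_right⟩, fun j hj =>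
        (h6 j hj).imp fun _ h => ⟨h.1, inter_subset_left.trans h.2⟩⟩⟩, hy U k1⟩
  choose T h5 h6 using fun k => (h3 k).2
  obtain ⟨f, h7, h8⟩ := (Finset.all_card_le_biUnion_card_iff_exists_injective T).1 fun s => by
    obtain rfl | hs := s.eq_empty_or_nonempty
    · simp
    exact ((Finset.card_le_card fun k hk => Finset.mem_range_succ_iff.2 (s.le_max' k hk)).trans
      (by simpa using h5 _)).trans (Finset.card_le_card
        (Finset.subset_biUnion_of_mem T (s.max'_mem hs)))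
  have h9 (n : ℕ) : ∃ W ∈ insert ∅ (F n), ∀ k, f k = n → V k ⊆ W := by
    by_cases h : ∃ k, f k = n
    · obtain ⟨k, rfl⟩ := h
      obtain ⟨U, h, h'⟩ := h6 k _ (h8 k)
      exact ⟨U, Or.inr h, fun _ e => h7 e ▸ h'⟩
    · exact ⟨∅, Or.inl rfl, fun k e => (h ⟨k, e⟩).elim⟩
  choose W k1 k2 using h9
  refine ⟨W, k1, fun x => ?_⟩
  obtain ⟨_, ⟨k, rfl⟩, h⟩ := h4.cov x
  exact ⟨_, h.mono (k2 _ k rfl)⟩

omit [TopologicalSpace X] in
lemma length_hist {α : Type*} (F : ℕ → α) (n : ℕ) : (hist F n).length = n := by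
  induction n with
  | zero => rfl
  | succ n ih => exact congrArg (· + 1) ih

theorem result (X : Type*) [TopologicalSpace X] :
    (SOne X ↔ ¬ WinOne X) ∧ (SFin X ↔ ¬ WinFin X) := by
  classical
  refine ⟨⟨fun hS ⟨ρ, h1, h2⟩ => ?_, fun h 𝒰 h1 => by_contra fun h2 => h ⟨fun l => 𝒰 l.length,
    fun _ => h1 _, fun U h3 h4 => h2 ⟨U, by simpa [length_hist] using h3, h4⟩⟩⟩,
    fun hS ⟨σ, h1, h2⟩ => ?_, fun h 𝒰 h1 => by_contra fun h2 => h ⟨fun l => 𝒰 l.length,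
    fun _ => h1 _, fun U h3 h4 => h2 ⟨U, by simpa [length_hist] using h3, h4⟩⟩⟩
  swap
  · obtain ⟨F, h3, h4⟩ := core hS h1
    refine h2 F h3 (dom (fun U hU => ?_) fun x => ?_)
    · obtain ⟨n, hn⟩ := mem_iUnion.1 hU
      exact ⟨(h1 _).1 U ((h3 n).2 hn), (h1 _).2.2.1 U ((h3 n).2 hn)⟩
    · obtain ⟨n, -, U, h5, h6⟩ := h4 x 0
      exact ⟨U, mem_iUnion.2 ⟨n, h5⟩, h6⟩
  have h3 (l : List (Set X)) (W : Set X) : ∃ U ∈ ρ l, (W = ∅ ∨ ∃ V ∈ ρ l, W ⊆ V) → W ⊆ U := by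
    by_cases h : ∃ V ∈ ρ l, W ⊆ V
    · exact h.imp fun _ h => ⟨h.1, fun _ => h.2⟩
    · exact ((h1 l).cov ⟨∅, finite_empty, by simp⟩).imp fun _ h' =>
        ⟨h'.1, fun h4 => h4.resolve_right h ▸ empty_subset _⟩
  choose p h3 h4 using h3
  let S : List (Set (Set X)) → Set (List (Set X)) :=
    List.rec {[]} fun F _ T => image2 (fun l W => p l W :: l) T (insert ∅ F)
  obtain ⟨F, h5, h6⟩ := core (fun 𝒰 h => (hS 𝒰 h).elim fun U h => ⟨fun n => {U n}, fun n =>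
    ⟨finite_singleton _, singleton_subset_iff.2 (h.1 n)⟩, iUnion_singleton_eq_range U ▸ h.2⟩)
    (σ := fun h => {W | (IsOpen W ∧ ¬ univ ⊆ closure W) ∧
      ((S h).Finite → ∀ l ∈ S h, ∃ U ∈ ρ l, W ⊆ U)}) fun h => dom (fun _ h => h.1) fun x => by
    obtain ⟨U, h5, h6⟩ := (h1 []).cov x
    by_cases h7 : (S h).Finite
    · obtain ⟨V, h8, h9, k1, k2⟩ := refine h1 h7 ((h1 _).1 U h5) h6
      exact ⟨V, ⟨⟨h9, fun h => (h1 _).2.2.1 U h5 (h.trans (closure_mono h8))⟩, fun _ => k2⟩, k1⟩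
    · exact ⟨U, ⟨⟨(h1 _).1 U h5, (h1 _).2.2.1 U h5⟩, fun h => (h7 h).elim⟩, h6⟩
  obtain ⟨W, h7, h8⟩ := gm hS (fun n U hU => ((h5 n).2 hU).1) h6
  let l : ℕ → List (Set X) := Nat.rec [] fun n s => p s (W n) :: s
  have h9 (n : ℕ) : hist (fun n => p (l n) (W n)) n = l n ∧ (S (hist F n)).Finite ∧
      l n ∈ S (hist F n) := by
    induction n with
    | zero => exact ⟨rfl, finite_singleton _, rfl⟩
    | succ n ih => exact ⟨congrArg _ ih.1, ih.2.1.image2 _ ((h5 n).1.insert _),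
        mem_image2_of_mem ih.2.2 (h7 n)⟩
  refine h2 (fun n => p (l n) (W n)) (fun n => (h9 n).1.symm ▸ h3 _ _) (dom
    (forall_mem_range.2 fun n => ⟨(h1 _).1 _ (h3 _ _), (h1 _).2.2.1 _ (h3 _ _)⟩) fun x => ?_)
  obtain ⟨n, hn⟩ := h8 x
  exact ⟨_, ⟨n, rfl⟩, hn.mono (h4 _ _ ((h7 n).imp_right fun h =>
    ((h5 n).2 h).2 (h9 n).2.1 _ (h9 n).2.2))⟩

end Pool.Agent.Results.MP_549d70_gt.Main
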